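import Pool.Agent.W_MP_d1f192_an.F1
import Pool.Agent.W_MP_d1f192_an.BMain
import Pool.Agent.W_MP_d1f192_an.DMain

/-!
# MP_d1f192_an, Q2 (negated form): entropic `C¹`-stability is not generic
-/

open MeasureTheory Set Filter Topology MPd1f192
open scoped Manifold ContDiff

namespace Pool.Agent.Results.MP_d1f192_an.NotGeneric

/-- There are a closed connected smooth 3-manifold `M` and a non-empty open set `U` of `Diff¹(M)`
all of whose elements `f` have positive topological entropy, are not entropically `C¹`-stable and
are `C¹`-limits of diffeomorphisms with larger topological entropy; in particular the entropically `C¹`-stable diffeomorphisms of `M` contain no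
residual subset of `Diff¹(M)`. -/
theorem result :
    ∃ (M : Type) (_ : TopologicalSpace M) (_ : ChartedSpace (EuclideanSpace ℝ (Fin 3)) M)
      (_ : IsManifold (𝓡 3) ∞ M) (_ : CompactSpace M) (_ : T2Space M) (_ : ConnectedSpace M)
      (_ : MeasurableSpace M) (_ : BorelSpace M),
      (∃ U : Set (Diff1 3 M), IsOpen U ∧ U.Nonempty ∧
        (∀ f ∈ U, 0 < htop (f : M → M) ∧ ¬ EntropicallyStable f ∧
          ∀ V ∈ 𝓝 f, ∃ g ∈ V, htop (f : M → M) < htop (g : M → M))) ∧
      ¬ ∃ R ∈ residual (Diff1 3 M), ∀ f ∈ R, EntropicallyStable f :=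
  notGeneric_of manifoldPart growthExists growthStrict growthIsEntropy

end Pool.Agent.Results.MP_d1f192_an.NotGeneric
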